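import Mathlib

/-!
# Multiplicative independence: definitions
-/

set_option autoImplicit false

namespace Pool.Agent.N205.SE

open Polynomial

/-- `w` is a product of powers, with integral exponents, of `q` and of elements of `S`. -/
def InGroup (q : ℕ) (S : Set ℂ) (w : ℂ) : Prop :=
  ∃ (c : ℤ) (n : ℕ) (u : Fin n → ℂ) (m : Fin n → ℤ), (∀ k, u k ∈ S) ∧
    w = (q : ℂ) ^ c * ∏ k, u k ^ m k

/-- **Independence.** The set `S` does not contain zero, and no power `z ^ N`, `N > 0`, of a root `z`
of one of the polynomials `f i` belongs to the multiplicative group generated by `q` and the elements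
of `S`. -/
def Indep {I : Type} (q : ℕ) (f : I → ℤ[X]) (S : Set ℂ) : Prop :=
  (0 : ℂ) ∉ S ∧ ∀ i, ∀ z : ℂ, aeval z (f i) = 0 → ∀ N : ℕ, 0 < N → ¬ InGroup q S (z ^ N)

end Pool.Agent.N205.SE
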