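import Mathlib
import Pool.Agent.W484.TB.Pair
import Pool.Agent.N205.SD.Defs
import Pool.Agent.N205.SE.Base

/-!
# Multiplicative independence
-/

set_option autoImplicit false

namespace Pool.Agent.N205.SE

open Polynomial Pool.Agent.W484.TB Pool.Agent.N205.SD

/-- **The criterion for independence.** Let `K` be a normal extension of `ℚ` in `ℂ`, finite or not,
which contains no root of the `f i`, and `r` a number smaller than all the `g i`. Then the set of the
roots of any rational polynomial `χ` is independent from the `f i` if, up to powers, these roots
lie in a group generated by the nonzero elements of `K` and `r` numbers (`RankLEOver`): for instance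
if they lie in `K`, or if they generate a group of rank at most `r`. -/
def Criterion {I : Type} (g : I → ℕ) (q : ℕ) (f : I → ℤ[X]) : Prop :=
  ∀ K : IntermediateField ℚ ℂ, Normal ℚ K → NoRoot f K → ∀ r : ℕ, (∀ i, r < g i) →
    ∀ χ : ℚ[X], χ ≠ 0 → RankLEOver K r {ρ : ℂ | aeval ρ χ = 0} →
      Indep q f {ρ : ℂ | aeval ρ χ = 0}

end Pool.Agent.N205.SE
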