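import Mathlib
import Pool.Agent.W484.CK.NCHom
import Pool.Agent.N205.SE.Defs

/-!
# The situation of the theorems, with independent eigenvalues
-/

set_option autoImplicit false

open CategoryTheory AlgebraicGeometry

universe u v w

namespace Pool.Agent.N205.SE

open Polynomial Pool.Agent.H914 Pool.Agent.H914.VarClass Pool.Agent.H914.VarClass.Obj
  Pool.Agent.W492.BB Pool.Agent.W484.CK

variable {k : Type u} [Field k] {𝒱 : VarClass k} {C : TheoryData.{u, v, 0} 𝒱 ℚ} {K : Type w}
  [Field K] (H : WeilTheoryData.{u, v, w} C K) {A Z : 𝒱.Obj}

/-- The eigenvalues of `π` on the cohomology of `Z` are roots of a nonzero rational polynomial such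
that no power of a root of one of the `f i` is a product of powers of `q` and of roots of this
polynomial (`Indep`). -/
def IndependentEigenvalues [CharZero K] (q : ℕ) {I : Type} (f : I → ℤ[X]) (π : Z ⟶ Z) : Prop :=
  ∃ χ : ℚ[X], χ ≠ 0 ∧ (∀ (ρ : K) (v : H.A Z), v ≠ 0 → H.up π v = ρ • v → aeval ρ χ = 0) ∧
    Indep q f {ρ : ℂ | aeval ρ χ = 0}

/-- The situation of the theorems: `πA` is the Frobenius endomorphism of an abelian variety `A` over
the field with `q ^ s` elements, isogenous to a product of powers of abelian varieties coming from
the field with `q` elements with characteristic polynomials `f i`; `Z` is any variety over the field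
with `q ^ s` elements, such that no power of a root of one of the `f i` is a product of powers of `q`
and of eigenvalues of its Frobenius endomorphism `πZ` on the cohomology, and such that homologically
trivial self-correspondences of `A × Z` of degree zero are nilpotent. -/
structure IsIndepSituation [CharZero K] (q s : ℕ) {I : Type} (f : I → ℤ[X])
    (πA : A ⟶ A) (πZ : Z ⟶ Z) : Prop where
  standard : IsStandard H
  pos : 0 < s
  abelian : IsAbelian H πA q s f
  indep : IndependentEigenvalues H q f πZ
  nilpotence : Nilpotence H (A.prod Z)

/-- The situation of the theorems on homological equivalence: `πA` is the Frobenius endomorphism of an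
abelian variety `A` over the field with `q ^ s` elements, isogenous to a product of powers of abelian
varieties coming from the field with `q` elements with characteristic polynomials `f i`; `Z` is
**any** variety over the field with `q ^ s` elements, such that no power of a root of one of the
`f i` is a product of powers of `q` and of eigenvalues of its Frobenius endomorphism `πZ` on the
cohomology; and `πA × πZ` acts on the Chow groups of `A × Z` in the usual way. -/
structure IsOpenIndepSituation [CharZero K] (q s : ℕ) {I : Type}
    (f : I → ℤ[X]) (πA : A ⟶ A) (πZ : Z ⟶ Z) : Prop where
  standard : IsStandard H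
  pos : 0 < s
  abelian : IsAbelian H πA q s f
  indep : IndependentEigenvalues H q f πZ
  frobenius : IsFrobenius C (prodMap πA πZ) (q ^ s)

end Pool.Agent.N205.SE
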