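import Mathlib
import Pool.Agent.N205.SE.Defs
import Pool.Agent.N205.SD.Rel

/-!
# The relations between the roots
-/

set_option autoImplicit false

namespace Pool.Agent.N205.SE

open Polynomial IntermediateField Pool.Agent.W521.Frob Pool.Agent.W521.Criterion
  Pool.Agent.W484.TB Pool.Agent.W484.AA Pool.Agent.N205.SD

/-- closure properties -/
theorem InGroup.mul {q : ℕ} {S : Set ℂ} {v w : ℂ} (hq : q ≠ 0) (hv : InGroup q S v)
    (hw : InGroup q S w) : InGroup q S (v * w) := by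
  obtain ⟨c, n, u, m, hu, rfl⟩ := hv
  obtain ⟨c', n', u', m', hu', rfl⟩ := hw
  refine ⟨c + c', n + n', Fin.append u u', Fin.append m m', fun k => ?_, ?_⟩
  · induction k using Fin.addCases with
    | left k => rw [Fin.append_left]; exact hu k
    | right k => rw [Fin.append_right]; exact hu' k
  · rw [Fin.prod_univ_add]
    simp only [Fin.append_left, Fin.append_right]
    rw [zpow_add₀ (by exact_mod_cast hq : (q : ℂ) ≠ 0)]
    ring

theorem InGroup.inv {q : ℕ} {S : Set ℂ} {v : ℂ} (hv : InGroup q S v) : InGroup q S v⁻¹ := by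
  obtain ⟨c, n, u, m, hu, rfl⟩ := hv
  refine ⟨-c, n, u, fun k => -m k, hu, ?_⟩
  rw [mul_inv, zpow_neg, ← Finset.prod_inv_distrib]
  congr 1
  exact Finset.prod_congr rfl fun k _ => (zpow_neg _ _).symm

theorem InGroup.of_mem {q : ℕ} {S : Set ℂ} {v : ℂ} (hv : v ∈ S) : InGroup q S v :=
  ⟨0, 1, fun _ => v, fun _ => 1, fun _ => hv, by simp⟩

theorem InGroup.base (q : ℕ) (S : Set ℂ) : InGroup q S (q : ℂ) :=
  ⟨1, 0, Fin.elim0, Fin.elim0, fun k => k.elim0, by simp⟩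

theorem InGroup.one (q : ℕ) (S : Set ℂ) : InGroup q S 1 :=
  ⟨0, 0, Fin.elim0, Fin.elim0, fun k => k.elim0, by simp⟩

theorem InGroup.pow {q : ℕ} {S : Set ℂ} {v : ℂ} (hq : q ≠ 0) (hv : InGroup q S v) (n : ℕ) :
    InGroup q S (v ^ n) := by
  induction n with
  | zero => rw [pow_zero]; exact InGroup.one q S
  | succ n ih => rw [pow_succ]; exact ih.mul hq hv

theorem InGroup.div {q : ℕ} {S : Set ℂ} {v w : ℂ} (hq : q ≠ 0) (hv : InGroup q S v)
    (hw : InGroup q S w) : InGroup q S (v / w) := by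
  rw [div_eq_mul_inv]
  exact hv.mul hq hw.inv

/-- **No relations with independent numbers.** -/
theorem no_relation_indep {I : Type} [Finite I] {q : ℕ} {h : I → ℤ[X]} (hq : q ≠ 0)
    (hm : ∀ i, (h i).Monic) (hirr : ∀ i, Irreducible ((h i).map (Int.castRingHom ℚ)))
    (hpat : ∀ i, ∃ l : ℕ, l.Prime ∧ l ≠ 2 ∧ ¬ l ∣ q ∧ FlipPattern q h i l)
    (χ : ℚ[X]) (hχ : χ ≠ 0)
    (hind : Indep q (fun i => weil q (h i)) {ρ : ℂ | aeval ρ χ = 0})
    (ρ : ℂ) (hρ : aeval ρ χ = 0) (s : ℕ) (hs : 0 < s) {n : ℕ} (hn : 0 < n) (c : ℤ)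
    (N : ℕ) (hN : 0 < N) (z : Fin n → ℂ) (hz : ∀ k, ∃ i, aeval (z k) (weil q (h i)) = 0)
    (hrel : ((∏ k, z k) ^ s * ρ) ^ N = (((q : ℂ) ^ s) ^ c) ^ N)
    (hno : ∀ k l, k ≠ l → z k * z l ≠ q) : False := by
  classical
  cases nonempty_fintype I
  have hρ0 : ρ ≠ 0 := by
    rintro rfl
    exact hind.1 hρ
  -- the field
  let T : Finset ℂ := (Finset.univ.biUnion fun i =>
    ((weil q (h i)).map (algebraMap ℤ ℂ)).roots.toFinset) ∪ {ρ}
  have hTint : ∀ y : T, IsIntegral ℚ (y : ℂ) := by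
    rintro ⟨y, hy⟩
    rcases Finset.mem_union.1 hy with h1 | h1
    · obtain ⟨i, -, h2⟩ := Finset.mem_biUnion.1 h1
      have h3 := (mem_roots'.1 (Multiset.mem_toFinset.1 h2)).2
      rw [IsRoot.def, eval_map] at h3
      have h4 : IsIntegral ℤ y := ⟨weil q (h i), weil_monic q (hm i), h3⟩
      exact h4.tower_top
    · rw [Finset.mem_singleton] at h1
      subst h1
      exact (isAlgebraic_iff_isIntegral).1 ⟨χ, hχ, hρ⟩
  obtain ⟨L, hL1, hL2, j, hj⟩ := exists_galois_of_rat (fun y : T => (y : ℂ)) hTint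
  have hL : ∀ i, ∀ z : ℂ, aeval z (weil q (h i)) = 0 → ∃ x : L, j x = z := by
    intro i z hz
    refine hj ⟨z, Finset.mem_union.2 (Or.inl (Finset.mem_biUnion.2 ⟨i, Finset.mem_univ _, ?_⟩))⟩
    rw [Multiset.mem_toFinset, mem_roots ((weil_monic q (hm i)).map _).ne_zero, IsRoot.def, eval_map]
    exact hz
  obtain ⟨r0, hr0⟩ : ∃ y : L, j y = ρ := hj ⟨ρ, Finset.mem_union.2 (Or.inr (by simp))⟩
  have hfl : ∀ i, ∀ α : L, aeval α (weil q (h i)) = 0 → Flippable q h α := by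
    intro i α hα
    obtain ⟨l, hl, hl2, hlq, hp⟩ := hpat i
    exact all_flippable hq hm L j hL i (hirr i) hl hl2 hlq hp α hα
  have hdown : ∀ (f : ℤ[X]) (x : L), aeval (j x) f = 0 → aeval x f = 0 := by
    intro f x hx
    apply j.injective
    have h2 := Polynomial.hom_eval₂ f (algebraMap ℤ L) j x
    rw [RingHom.ext_int (j.comp (algebraMap ℤ L)) (algebraMap ℤ ℂ)] at h2
    rw [map_zero]
    exact h2.trans hx
  have hjq : ∀ (f : ℚ[X]) (x : L), j (aeval x f) = aeval (j x) f := by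
    intro f x
    have h2 := Polynomial.hom_eval₂ f (algebraMap ℚ L) j x
    rw [RingHom.ext_rat (j.comp (algebraMap ℚ L)) (algebraMap ℚ ℂ)] at h2
    exact h2
  choose i hi using hz
  choose x hx using fun k => hL (i k) (z k) (hi k)
  have hxr : ∀ k, aeval (x k) (weil q (h (i k))) = 0 := fun k => hdown _ _ (by rw [hx]; exact hi k)
  have hx0 : ∀ k, x k ≠ 0 := fun k => root_ne_zero hq (hm (i k)) (hxr k)
  have hqL : (q : L) ≠ 0 := by exact_mod_cast hq
  have hnoL : ∀ k l, x l ≠ q / x k := by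
    intro k l hkl
    by_cases hk : k = l
    · subst hk
      obtain ⟨-, -, h2, -⟩ := hfl (i k) (x k) (hxr k)
      exact h2 hkl
    · apply hno k l hk
      have h3 := congrArg j hkl
      rw [map_div₀, map_natCast, hx, hx] at h3
      have hz0 : z k ≠ 0 := by
        rw [← hx k, Ne, map_eq_zero]
        exact hx0 k
      rw [h3]
      field_simp
  have hr00 : r0 ≠ 0 := by
    rintro rfl
    rw [map_zero] at hr0
    exact hρ0 hr0.symm
  have hχL : aeval r0 χ = 0 := by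
    apply j.injective
    rw [hjq, hr0, hρ, map_zero]
  have hχσ : ∀ σ : L ≃ₐ[ℚ] L, aeval (σ r0) χ = 0 := by
    intro σ
    have h1 := Polynomial.aeval_algHom_apply (σ : L →ₐ[ℚ] L) r0 χ
    rw [hχL, map_zero] at h1
    exact h1
  -- the relation
  have hrelL : ((∏ k, x k) ^ s * r0) ^ N = (((q : L) ^ s) ^ c) ^ N := by
    apply j.injective
    rw [map_pow, map_mul, map_pow, map_prod, hr0, map_pow, map_zpow₀, map_pow, map_natCast,
      Finset.prod_congr rfl fun k _ => hx k]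
    exact hrel
  -- the flip
  let k₀ : Fin n := ⟨0, hn⟩
  obtain ⟨σ₀, hσ1, -, hσ3⟩ := hfl (i k₀) (x k₀) (hxr k₀)
  obtain ⟨a, ha, hprod⟩ : ∃ a : ℕ, 0 < a ∧ σ₀ (∏ k, x k) = (q / x k₀ ^ 2) ^ a * ∏ k, x k := by
    refine ⟨(Finset.univ.filter (fun k => x k = x k₀)).card, Finset.card_pos.2 ⟨k₀, by simp⟩, ?_⟩
    refine prod_flip x (x k₀) _ (σ₀ : L ≃+* L) ?_ ?_
    · change σ₀ (x k₀) = _
      rw [hσ1]
      have := hx0 k₀
      field_simp
    · intro k hk
      exact hσ3 (i k) (x k) (hxr k) hk (hnoL k₀ k)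
  have hPx : (∏ k, x k) ≠ 0 := Finset.prod_ne_zero_iff.2 fun k _ => hx0 k
  obtain ⟨M, hM, hstep⟩ : ∃ M : ℕ, 0 < M ∧
      r0 ^ N * (x k₀ ^ 2) ^ M = (σ₀ r0) ^ N * (q : L) ^ M := by
    refine ⟨a * s * N, by positivity, ?_⟩
    have h1 := congrArg σ₀ hrelL
    rw [map_pow, map_mul, map_pow, hprod, map_pow, map_zpow₀, map_pow, map_natCast, ← hrelL] at h1
    have h2 : ((q : L) / x k₀ ^ 2) ^ (a * s * N) * (x k₀ ^ 2) ^ (a * s * N) = (q : L) ^ (a * s * N) := by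
      rw [← mul_pow, div_mul_cancel₀ _ (pow_ne_zero _ (hx0 k₀))]
    have h3 : (((q : L) / x k₀ ^ 2) ^ a * ∏ k, x k) ^ s * σ₀ r0 =
        ((q : L) / x k₀ ^ 2) ^ (a * s) * ((∏ k, x k) ^ s * σ₀ r0) := by
      rw [mul_pow, ← pow_mul, mul_assoc]
    rw [h3, mul_pow, ← pow_mul, mul_pow ((∏ k, x k) ^ s), mul_pow ((∏ k, x k) ^ s)] at h1
    have h4 : ((∏ k, x k) ^ s) ^ N ≠ 0 := pow_ne_zero _ (pow_ne_zero _ hPx)
    apply mul_left_cancel₀ h4
    rw [← h2, ← mul_assoc, ← h1]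
    ring
  -- a power of the root in the group
  refine hind.2 (i k₀) (z k₀) (hi k₀) (2 * M) (by omega) ?_
  have h1 := congrArg j hstep
  rw [map_mul, map_mul, map_pow, map_pow, map_pow, map_pow, map_pow, map_natCast, hx, hr0] at h1
  have h2 : z k₀ ^ (2 * M) = (j (σ₀ r0)) ^ N * (q : ℂ) ^ M / ρ ^ N := by
    rw [eq_div_iff (pow_ne_zero _ hρ0), ← h1, pow_mul]
    ring
  rw [h2]
  have h3 : InGroup q {ρ : ℂ | aeval ρ χ = 0} (j (σ₀ r0)) := by
    apply InGroup.of_mem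
    change aeval (j (σ₀ r0)) χ = 0
    rw [← hjq, hχσ, map_zero]
  exact ((h3.pow hq N).mul hq ((InGroup.base q _).pow hq M)).div hq
    ((InGroup.of_mem (show ρ ∈ {ρ : ℂ | aeval ρ χ = 0} from hρ)).pow hq N)

end Pool.Agent.N205.SE
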