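import Mathlib
import Pool.Agent.N205.SE.Rel
import Pool.Agent.N205.SD.Pair

/-!
# The criterion for independence
-/

set_option autoImplicit false

namespace Pool.Agent.N205.SE

open Polynomial IntermediateField Pool.Agent.W521.Frob Pool.Agent.W521.Criterion
  Pool.Agent.W521.Bad Pool.Agent.W521.Descent Pool.Agent.W521.Density Pool.Agent.W521.Count
  Pool.Agent.W484.TB Pool.Agent.W484.AA Pool.Agent.N205.SD

section rank

variable {K : IntermediateField ℚ ℂ} {r : ℕ} {u : Fin r → ℂ}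

/-- `w` has a power in the group generated by `K` and the `u t` -/
def Rk (K : IntermediateField ℚ ℂ) {r : ℕ} (u : Fin r → ℂ) (w : ℂ) : Prop :=
  ∃ (M : ℕ) (e : ℂ) (m : Fin r → ℤ), 0 < M ∧ e ∈ K ∧ e ≠ 0 ∧ w ^ M = e * ∏ t, u t ^ m t

theorem Rk.mul (hu : ∀ t, u t ≠ 0) {v w : ℂ} (hv : Rk K u v) (hw : Rk K u w) :
    Rk K u (v * w) := by
  obtain ⟨M, e, m, hM, he, he0, h1⟩ := hv
  obtain ⟨M', e', m', hM', he', he0', h1'⟩ := hw
  refine ⟨M * M', e ^ M' * e' ^ M, fun t => m t * M' + m' t * M, by positivity,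
    mul_mem (pow_mem he _) (pow_mem he' _), mul_ne_zero (pow_ne_zero _ he0)
      (pow_ne_zero _ he0'), ?_⟩
  have h2 : ∏ t, u t ^ (m t * M' + m' t * M) = (∏ t, u t ^ m t) ^ M' * (∏ t, u t ^ m' t) ^ M := by
    rw [← Finset.prod_pow, ← Finset.prod_pow, ← Finset.prod_mul_distrib]
    refine Finset.prod_congr rfl fun t _ => ?_
    rw [zpow_add₀ (hu t), zpow_mul, zpow_mul, zpow_natCast, zpow_natCast]
  calc (v * w) ^ (M * M') = (v ^ M) ^ M' * (w ^ M') ^ M := by
        rw [mul_pow, ← pow_mul, ← pow_mul, mul_comm M' M]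
    _ = (e * ∏ t, u t ^ m t) ^ M' * (e' * ∏ t, u t ^ m' t) ^ M := by rw [h1, h1']
    _ = _ := by rw [h2]; ring

theorem Rk.zpow {v : ℂ} (hv : Rk K u v) (k : ℤ) : Rk K u (v ^ k) := by
  obtain ⟨M, e, m, hM, he, he0, h1⟩ := hv
  refine ⟨M, e ^ k, fun t => m t * k, hM, zpow_mem he _, zpow_ne_zero _ he0, ?_⟩
  rw [← zpow_natCast, ← zpow_mul, mul_comm k, zpow_mul, zpow_natCast, h1, mul_zpow,
    ← Finset.prod_zpow]
  congr 1
  exact Finset.prod_congr rfl fun t _ => (zpow_mul _ _ _).symm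

theorem Rk.of_mem {v : ℂ} (hv : v ∈ K) (hv0 : v ≠ 0) : Rk K u v :=
  ⟨1, v, fun _ => 0, one_pos, hv, hv0, by simp⟩

theorem Rk.prod (hu : ∀ t, u t ≠ 0) {n : ℕ} (v : Fin n → ℂ) (hv : ∀ k, Rk K u (v k)) :
    Rk K u (∏ k, v k) := by
  classical
  have h : ∀ S : Finset (Fin n), Rk K u (∏ k ∈ S, v k) := by
    intro S
    induction S using Finset.induction_on with
    | empty => exact Rk.of_mem (one_mem K) one_ne_zero
    | insert k S hk ih =>
      rw [Finset.prod_insert hk]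
      exact (hv k).mul hu ih
  exact h Finset.univ

theorem Rk.of_inGroup (hu : ∀ t, u t ≠ 0) {q : ℕ} (hq : q ≠ 0) {S : Set ℂ}
    (hS : ∀ ρ ∈ S, Rk K u ρ) {w : ℂ} (hw : InGroup q S w) : Rk K u w := by
  obtain ⟨c, n, v, m, hv, rfl⟩ := hw
  have hq0 : (q : ℂ) ≠ 0 := by exact_mod_cast hq
  have h1 : Rk K u (q : ℂ) := Rk.of_mem (_root_.natCast_mem K q) hq0
  exact (h1.zpow c).mul hu (Rk.prod hu _ fun k => (hS _ (hv k)).zpow _)

end rank

theorem criterion_of_good {I : Type} [Finite I] (g : I → ℕ) {q : ℕ} (hq : q ≠ 0)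
    (x : (Σ i, Fin (g i)) → ℤ) (hx : Good g q x) :
    Criterion g q (fun i => weil q (polys g x i)) := by
  classical
  intro K hKn hroots r hr χ hχ hrank
  have h0 := zero_not_rank_over hrank
  refine ⟨h0, fun i₀ z hz N hN hin => ?_⟩
  obtain ⟨hpat, hirr, hss⟩ := hx
  have hm : ∀ i, (polys g x i).Monic := fun i => mkPoly_monic (g i) _
  set h : I → ℤ[X] := polys g x with hh
  cases nonempty_fintype I
  obtain ⟨u, hu0, hu⟩ := hrank
  obtain ⟨c, n, v, m, hv, hzN⟩ := hin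
  -- the field
  let T : Finset ℂ := (Finset.univ.biUnion fun i =>
    ((weil q (h i)).map (algebraMap ℤ ℂ)).roots.toFinset) ∪ Finset.univ.image v
  have hTint : ∀ y : T, IsIntegral ℚ (y : ℂ) := by
    rintro ⟨y, hy⟩
    rcases Finset.mem_union.1 hy with h1 | h1
    · obtain ⟨i, -, h2⟩ := Finset.mem_biUnion.1 h1
      have h3 := (mem_roots'.1 (Multiset.mem_toFinset.1 h2)).2
      rw [IsRoot.def, eval_map] at h3
      have h4 : IsIntegral ℤ y := ⟨weil q (h i), weil_monic q (hm i), h3⟩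
      exact h4.tower_top
    · obtain ⟨k, -, h2⟩ := Finset.mem_image.1 h1
      subst h2
      exact (isAlgebraic_iff_isIntegral).1 ⟨χ, hχ, hv k⟩
  obtain ⟨L, hL1, hL2, j, hj⟩ := exists_galois_of_rat (fun y : T => (y : ℂ)) hTint
  have hL : ∀ i, ∀ z : ℂ, aeval z (weil q (h i)) = 0 → ∃ x : L, j x = z := by
    intro i z hz
    refine hj ⟨z, Finset.mem_union.2 (Or.inl (Finset.mem_biUnion.2 ⟨i, Finset.mem_univ _, ?_⟩))⟩
    rw [Multiset.mem_toFinset, mem_roots ((weil_monic q (hm i)).map _).ne_zero, IsRoot.def, eval_map]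
    exact hz
  have hvL : ∀ k, ∃ y : L, j y = v k := fun k =>
    hj ⟨v k, Finset.mem_union.2 (Or.inr (Finset.mem_image.2 ⟨k, Finset.mem_univ _, rfl⟩))⟩
  choose y hy using hvL
  have hK1 : ∀ x : L, j x ∈ K → ∀ σ : L ≃ₐ[ℚ] L, j (σ x) ∈ K := fun x hx σ =>
    normal_stable j hx σ
  have hK2 : ∀ i, ∀ α : L, aeval α (weil q (h i)) = 0 → j α ∉ K := by
    intro i α hα
    refine hroots i _ ?_
    have h2 := Polynomial.hom_eval₂ (weil q (h i)) (algebraMap ℤ L) j α
    have h3 : eval₂ (algebraMap ℤ L) α (weil q (h i)) = 0 := hα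
    rw [h3, map_zero, RingHom.ext_int (j.comp (algebraMap ℤ L)) (algebraMap ℤ ℂ)] at h2
    exact h2.symm
  have hfl : ∀ i, ∀ α : L, aeval α (weil q (h i)) = 0 → Flippable q h α := by
    intro i α hα
    obtain ⟨l, hl, hl2, hlq, hp⟩ := hpat i
    exact all_flippable hq hm L j hL i (hirr i) hl hl2 hlq hp α hα
  have hdown : ∀ (f : ℤ[X]) (x : L), aeval (j x) f = 0 → aeval x f = 0 := by
    intro f x hx
    apply j.injective
    have h2 := Polynomial.hom_eval₂ f (algebraMap ℤ L) j x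
    rw [RingHom.ext_int (j.comp (algebraMap ℤ L)) (algebraMap ℤ ℂ)] at h2
    rw [map_zero]
    exact h2.trans hx
  have hjq : ∀ (f : ℚ[X]) (x : L), j (aeval x f) = aeval (j x) f := by
    intro f x
    have h2 := Polynomial.hom_eval₂ f (algebraMap ℚ L) j x
    rw [RingHom.ext_rat (j.comp (algebraMap ℚ L)) (algebraMap ℚ ℂ)] at h2
    exact h2
  have hqC : (q : ℂ) ≠ 0 := by exact_mod_cast hq
  obtain ⟨α, hα⟩ := hL i₀ z hz
  have hαr : aeval α (weil q (h i₀)) = 0 := hdown _ _ (by rw [hα]; exact hz)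
  -- the relation in the field
  have hrel : α ^ N = (q : L) ^ c * ∏ k, y k ^ m k := by
    apply j.injective
    rw [map_pow, hα, map_mul, map_zpow₀, map_natCast, map_prod, hzN]
    congr 1
    refine Finset.prod_congr rfl fun k _ => ?_
    rw [map_zpow₀, hy]
  have hconj : ∀ τ : L ≃ₐ[ℚ] L, InGroup q {ρ : ℂ | aeval ρ χ = 0} (j (τ α) ^ N) := by
    intro τ
    refine ⟨c, n, fun k => j (τ (y k)), m, fun k => ?_, ?_⟩
    · change aeval (j (τ (y k))) χ = 0
      have h1 := Polynomial.aeval_algHom_apply (τ : L →ₐ[ℚ] L) (y k) χ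
      have h2 : aeval (y k) χ = 0 := by
        apply j.injective
        rw [hjq, hy, map_zero]
        exact hv k
      rw [h2, map_zero] at h1
      rw [← hjq]
      have h3 : aeval (τ (y k)) χ = 0 := h1
      rw [h3, map_zero]
    · have h1 := congrArg (fun w => j (τ w)) hrel
      simp only [map_pow, map_mul, map_zpow₀, map_natCast, map_prod] at h1
      exact h1
  have hall : ∀ w : L, aeval w (weil q (h i₀)) = 0 →
      InGroup q {ρ : ℂ | aeval ρ χ = 0} (j w ^ N) := by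
    intro w hw
    have hw0 : w ≠ 0 := root_ne_zero hq (hm _) hw
    obtain ⟨τ, hτ⟩ := exists_tau hq hm L j hL i₀ (hirr _) α w hαr hw
    rcases hτ with h2 | h2
    · rw [← h2]
      exact hconj τ
    · have h3 := hconj τ
      rw [h2] at h3
      have h4 : j w ^ N = (q : ℂ) ^ N / (j (q / w)) ^ N := by
        have hjw : j w ≠ 0 := by rw [Ne, map_eq_zero]; exact hw0
        rw [map_div₀, map_natCast, eq_div_iff (pow_ne_zero _ (div_ne_zero hqC hjw)), ← mul_pow,
          mul_div_cancel₀ _ hjw]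
      rw [h4]
      exact ((InGroup.base q _).pow hq N).div hq h3
  refine no_small_rank_normal hq hm j hL hK1 hK2 i₀ (hirr _) (hfl _) (hss _) r (by
      rw [show (h i₀).natDegree = g i₀ from mkPoly_natDegree (g i₀) _]
      exact hr i₀) u hu0 ?_
  intro w hw
  obtain ⟨M, e, m', hM, he, he0, h1⟩ := Rk.of_inGroup (K := K) hu0 hq (fun ρ hρ => by
    obtain ⟨N', e', m', h2, h3, h4, h5⟩ := hu ρ hρ
    exact ⟨N', e', m', h2, h3, h4, h5⟩) (hall w hw)
  refine ⟨N * M, e ^ 2, fun t => m' t * 2, by positivity, pow_mem he _, pow_ne_zero _ he0, ?_⟩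
  have h2 : ∏ t, u t ^ (m' t * 2) = (∏ t, u t ^ m' t) ^ 2 := by
    rw [← Finset.prod_pow]
    refine Finset.prod_congr rfl fun t _ => ?_
    rw [zpow_mul]
    norm_cast
  rw [h2, ← mul_pow, ← h1]
  ring

end Pool.Agent.N205.SE
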