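import Mathlib
import Pool.Agent.N205.SE.Crit

/-!
# Products of eigenvalues of Frobenius and independent numbers
-/

set_option autoImplicit false

namespace Pool.Agent.N205.SE

open Polynomial Module Pool.Agent.W484.AA Pool.Agent.W484.BB Pool.Agent.W521.Frob
  Pool.Agent.W521.Count Pool.Agent.W521.Bad Pool.Agent.W521.Descent Pool.Agent.W521.Density
  Pool.Agent.W521.Criterion Pool.Agent.W484.HS Pool.Agent.W484.TB Pool.Agent.N205.SD

/-- **The relations.** -/
theorem pair_indep {I : Type} [Finite I] (g : I → ℕ) {q : ℕ} (hq : q ≠ 0)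
    (x : (Σ i, Fin (g i)) → ℤ) (hx : Good g q x) (s : ℕ) (hs : 0 < s) (χ : ℚ[X]) (hχ : χ ≠ 0)
    (hind : Indep q (fun i => weil q (polys g x i)) {ρ : ℂ | aeval ρ χ = 0})
    (ρ : ℂ) (hρ : aeval ρ χ = 0) :
    ExactPair (fun z : {z : ℂ // ∃ i, aeval z (weil q (polys g x i)) = 0} => (z : ℂ) ^ s)
      ((q : ℂ) ^ s) ρ := by
  obtain ⟨hpat, hirr, hss⟩ := hx
  have hm : ∀ i, (polys g x i).Monic := fun i => mkPoly_monic (g i) _
  intro n c N hN hn ys hlen hrel hpw
  let X := {z : ℂ // ∃ i, aeval z (weil q (polys g x i)) = 0}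
  refine no_relation_indep hq hm hirr hpat χ hχ hind ρ hρ s hs hn c N hN
    (fun l => ((ys.get (Fin.cast hlen.symm l) : X) : ℂ))
    (fun l => (ys.get (Fin.cast hlen.symm l)).2) ?_ ?_
  · rw [← hrel]
    congr 2
    have h6 : ∏ l : Fin n, ((ys.get (Fin.cast hlen.symm l) : X) : ℂ) =
        (ys.map (fun y : X => (y : ℂ))).prod := by
      have h61 : ∏ l : Fin n, ((ys.get (Fin.cast hlen.symm l) : X) : ℂ) =
          ∏ l : Fin ys.length, ((ys.get l : X) : ℂ) :=
        Fintype.prod_equiv (finCongr hlen.symm) _ _ fun l => rfl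
      rw [h61, ← List.prod_ofFn]
      congr 1
      apply List.ext_getElem
      · simp
      · intro i h1 h2
        simp
    rw [h6]
    have h7 : ∀ ys : List X, (ys.map (fun y : X => (y : ℂ))).prod ^ s =
        (ys.map (fun y : X => (y : ℂ) ^ s)).prod := by
      intro ys
      induction ys with
      | nil => simp
      | cons y ys ih =>
        rw [List.map_cons, List.prod_cons, mul_pow, ih, List.map_cons, List.prod_cons]
    exact h7 ys
  · have hbad : ∀ k' l' : Fin ys.length, k' < l' →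
        ((ys.get k' : X) : ℂ) * ((ys.get l' : X) : ℂ) ≠ q := by
      intro k' l' hkl h8
      refine (List.pairwise_iff_get.1 hpw) k' l' hkl ?_
      change ((ys.get k' : X) : ℂ) ^ s * ((ys.get l' : X) : ℂ) ^ s = _
      rw [← mul_pow, h8]
    intro k' l' hkl
    rcases lt_or_gt_of_ne hkl with h | h
    · exact hbad _ _ h
    · intro h8
      rw [mul_comm] at h8
      exact hbad _ _ h h8

/-- The relations for a field of characteristic zero. -/
theorem pair_field {I : Type} [Finite I] (g : I → ℕ) {q : ℕ} (hq : q ≠ 0)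
    (x : (Σ i, Fin (g i)) → ℤ) (hx : Good g q x) (s : ℕ) (hs : 0 < s) (χ : ℚ[X]) (hχ : χ ≠ 0)
    (hind : Indep q (fun i => weil q (polys g x i)) {ρ : ℂ | aeval ρ χ = 0})
    {K : Type*} [Field K] [CharZero K] (ρ : K) (hρ : aeval ρ χ = 0) :
    ExactPairK (fun z : {z : K // ∃ i, aeval z (weil q (polys g x i)) = 0} => (z : K) ^ s)
      ((q : K) ^ s) ρ := by
  classical
  have hmem : ∀ z : K, (∃ p : ℚ[X], p ≠ 0 ∧ aeval z p = 0) → z ∈ algebraicClosure ℚ K := by
    rintro z ⟨p, hp, hz⟩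
    rw [mem_algebraicClosure_iff]
    exact ⟨p, hp, hz⟩
  have halg : Algebra.IsAlgebraic ℚ (algebraicClosure ℚ K) := algebraicClosure.isAlgebraic ℚ K
  let j : algebraicClosure ℚ K →ₐ[ℚ] ℂ := IsAlgClosed.lift
  have hρm := hmem ρ ⟨χ, hχ, hρ⟩
  have hρj : aeval (j ⟨ρ, hρm⟩) χ = 0 := by
    rw [Polynomial.aeval_algHom_apply]
    have h1 : aeval (⟨ρ, hρm⟩ : algebraicClosure ℚ K) χ = 0 := by
      apply (algebraMap (algebraicClosure ℚ K) K).injective
      rw [← Polynomial.aeval_algebraMap_apply, map_zero]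
      exact hρ
    rw [h1, map_zero]
  have h0 := pair_indep g hq x hx s hs χ hχ hind _ hρj
  have hzm : ∀ z : {z : K // ∃ i, aeval z (weil q (polys g x i)) = 0},
      (z : K) ∈ algebraicClosure ℚ K := by
    rintro ⟨z, i, hi⟩
    refine hmem z ⟨(weil q (polys g x i)).map (algebraMap ℤ ℚ), ?_, ?_⟩
    · exact ((weil_monic q (mkPoly_monic (g i) (fun k => x ⟨i, k⟩))).map _).ne_zero
    · rw [aeval_map_algebraMap]
      exact hi
  have hz : ∀ z : {z : K // ∃ i, aeval z (weil q (polys g x i)) = 0},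
      ∃ i, aeval (j ⟨z, hzm z⟩) (weil q (polys g x i)) = 0 := by
    rintro ⟨z, i, hi⟩
    refine ⟨i, ?_⟩
    have h2 := Polynomial.hom_eval₂ (weil q (polys g x i)) (algebraMap ℤ _)
      (j : algebraicClosure ℚ K →+* ℂ) ⟨z, hzm ⟨z, i, hi⟩⟩
    rw [RingHom.ext_int ((j : algebraicClosure ℚ K →+* ℂ).comp (algebraMap ℤ _))
      (algebraMap ℤ ℂ)] at h2
    have h3 : eval₂ (algebraMap ℤ (algebraicClosure ℚ K)) (⟨z, hzm ⟨z, i, hi⟩⟩ :
        algebraicClosure ℚ K) (weil q (polys g x i)) = 0 := by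
      apply (algebraMap (algebraicClosure ℚ K) K).injective
      rw [map_zero, Polynomial.hom_eval₂, RingHom.ext_int ((algebraMap (algebraicClosure ℚ K)
        K).comp (algebraMap ℤ _)) (algebraMap ℤ K)]
      exact hi
    rw [h3, map_zero] at h2
    exact h2.symm
  intro n c N hN hn ys hlen hrel hpw
  let φ : {z : K // ∃ i, aeval z (weil q (polys g x i)) = 0} →
      {z : ℂ // ∃ i, aeval z (weil q (polys g x i)) = 0} := fun z => ⟨j ⟨z, hzm z⟩, hz z⟩
  have hrel0 : ((ys.map (fun z : {z : K // ∃ i, aeval z (weil q (polys g x i)) = 0} =>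
      (⟨z, hzm z⟩ : algebraicClosure ℚ K) ^ s)).prod * ⟨ρ, hρm⟩) ^ N = (((q : algebraicClosure ℚ K) ^ s) ^ c) ^ N := by
    apply (algebraMap (algebraicClosure ℚ K) K).injective
    rw [map_pow, map_mul, _root_.map_list_prod, List.map_map, map_pow, map_zpow₀, map_pow,
      map_natCast]
    exact hrel
  refine h0 n c N hN hn (ys.map φ) (by rw [List.length_map, hlen]) ?_ ?_
  · have h4 := congrArg j hrel0
    rw [map_pow, map_mul, _root_.map_list_prod j, List.map_map, map_pow, map_zpow₀, map_pow,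
      map_natCast] at h4
    rw [List.map_map, ← h4]
    congr 4
    funext z
    change (j ⟨z, hzm z⟩) ^ s = j (⟨z, hzm z⟩ ^ s)
    rw [map_pow]
  · rw [List.pairwise_map]
    refine hpw.imp ?_
    intro a b hab h5
    apply hab
    change (j ⟨a, hzm a⟩) ^ s * (j ⟨b, hzm b⟩) ^ s = (q : ℂ) ^ s at h5
    have h6 : (⟨a, hzm a⟩ : algebraicClosure ℚ K) ^ s * ⟨b, hzm b⟩ ^ s =
        (q : algebraicClosure ℚ K) ^ s := by
      apply (j : algebraicClosure ℚ K →+* ℂ).injective
      rw [map_mul, map_pow, map_pow, map_pow, map_natCast]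
      exact h5
    have h7 := congrArg (algebraMap (algebraicClosure ℚ K) K) h6
    rw [map_mul, map_pow, map_pow, map_pow, map_natCast] at h7
    exact h7



/-- There are no rational roots. -/
theorem noRoot_rat {I : Type} [Finite I] (g : I → ℕ) {q : ℕ} (hq : q ≠ 0)
    (x : (Σ i, Fin (g i)) → ℤ) (hx : Good g q x) :
    NoRoot (fun i => weil q (polys g x i)) (⊥ : IntermediateField ℚ ℂ) := by
  classical
  cases nonempty_fintype I
  intro i z hz hmem
  have hm : ∀ i, (polys g x i).Monic := fun i => mkPoly_monic (g i) _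
  obtain ⟨y, hy⟩ := IntermediateField.mem_bot.1 hmem
  let T : Finset ℂ := Finset.univ.biUnion fun i =>
    ((weil q (polys g x i)).map (algebraMap ℤ ℂ)).roots.toFinset
  have hTint : ∀ y : T, IsIntegral ℚ (y : ℂ) := by
    rintro ⟨y, hy⟩
    obtain ⟨i, -, h2⟩ := Finset.mem_biUnion.1 hy
    have h3 := (mem_roots'.1 (Multiset.mem_toFinset.1 h2)).2
    rw [IsRoot.def, eval_map] at h3
    have h4 : IsIntegral ℤ y := ⟨weil q (polys g x i), weil_monic q (hm i), h3⟩
    exact h4.tower_top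
  obtain ⟨L, hL1, hL2, j, hj⟩ := exists_galois_of_rat (fun y : T => (y : ℂ)) hTint
  have hL : ∀ i, ∀ z : ℂ, aeval z (weil q (polys g x i)) = 0 → ∃ x : L, j x = z := by
    intro i z hz
    refine hj ⟨z, Finset.mem_biUnion.2 ⟨i, Finset.mem_univ _, ?_⟩⟩
    rw [Multiset.mem_toFinset, mem_roots ((weil_monic q (hm i)).map _).ne_zero, IsRoot.def, eval_map]
    exact hz
  obtain ⟨α, hα⟩ := hL i z hz
  have hαr : aeval α (weil q (polys g x i)) = 0 := by
    apply j.injective
    have h2 := Polynomial.hom_eval₂ (weil q (polys g x i)) (algebraMap ℤ L) j α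
    rw [RingHom.ext_int (j.comp (algebraMap ℤ L)) (algebraMap ℤ ℂ), hα] at h2
    rw [map_zero]
    exact h2.trans hz
  obtain ⟨l, hl, hl2, hlq, hp⟩ := hx.1 i
  obtain ⟨σ, hσ1, hσ2, -⟩ := all_flippable hq hm L j hL i (hx.2.1 i) hl hl2 hlq hp α hαr
  have h1 : α = algebraMap ℚ L y := by
    apply j.injective
    rw [hα, ← hy]
    exact (RingHom.congr_fun (RingHom.ext_rat (j.comp (algebraMap ℚ L)) (algebraMap ℚ ℂ)) y).symm
  apply hσ2
  rw [← hσ1, h1]
  exact (σ.commutes y).symm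

/-- The number one is independent. -/
theorem indep_one {I : Type} [Finite I] (g : I → ℕ) (hg : ∀ i, 0 < g i) {q : ℕ} (hq : q ≠ 0)
    (x : (Σ i, Fin (g i)) → ℤ) (hx : Good g q x) :
    Indep q (fun i => weil q (polys g x i)) {ρ : ℂ | aeval ρ (Polynomial.X - 1 : ℚ[X]) = 0} := by
  have hX1 : (Polynomial.X - 1 : ℚ[X]) ≠ 0 := by
    have := Polynomial.X_sub_C_ne_zero (1 : ℚ)
    rwa [map_one] at this
  have hN : Normal ℚ (⊥ : IntermediateField ℚ ℂ) := by
    have h0 : (⊥ : IntermediateField ℚ ℂ).algebra' = DivisionRing.toRatAlgebra :=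
      Subsingleton.elim _ _
    have h1 : @Normal ℚ (⊥ : IntermediateField ℚ ℂ) _ _ (⊥ : IntermediateField ℚ ℂ).algebra' :=
      inferInstance
    rwa [h0] at h1
  refine criterion_of_good g hq x hx ⊥ hN (noRoot_rat g hq x hx) 0 hg _ hX1 ?_
  refine ⟨fun _ => 1, fun _ => one_ne_zero, fun ρ hρ => ⟨1, 1, fun _ => 0, one_pos,
    one_mem _, one_ne_zero, ?_⟩⟩
  change aeval ρ (Polynomial.X - 1 : ℚ[X]) = 0 at hρ
  rw [map_sub, aeval_X, map_one, sub_eq_zero] at hρ
  rw [hρ]
  simp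

end Pool.Agent.N205.SE
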