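import Mathlib
import Pool.Agent.W484.CK.Motivic
import Pool.Agent.N205.SE.StmA

/-!
# Theories on which correspondences act: the property
-/

set_option autoImplicit false

open CategoryTheory AlgebraicGeometry

namespace Pool.Agent.N205.SE

open Polynomial Pool.Agent.H914 Pool.Agent.H914.VarClass Pool.Agent.H914.VarClass.Obj
  Pool.Agent.W492.BB Pool.Agent.W484.CK

/-- `MotivicForIndep q f`: for the Chow groups `C` with rational
coefficients of all classes `𝒱` of varieties over fields `k` (finite, in the intended use),
every Weil cohomology theory `H` with coefficients in an algebraically closed field `K` of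
characteristic zero and all `A`, `Z` as in `IsIndepSituation` there are products `D j`
of `deg j` divisor classes on `A`, finitely many, such that the following holds for all theories
`T` with rational coefficients on which correspondences act and such that the Frobenius
endomorphism of `A × Z` acts on `T^i(A × Z)` as multiplication by `q ^ (s i)`, for instance the
`K`-groups `K_m` with their Adams decompositions, for every `m`: the Kunneth formula
`T^i(A × Z) = ⨁ D j × T^(i - deg j)(Z)` holds, and `T^i(A × Z) = 0` for all `i ≤ n` if and only if
`T^i(Z) = 0` for all `i ≤ n`. -/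
def MotivicForIndep (q : ℕ) {I : Type} (f : I → ℤ[X]) : Prop :=
  ∀ (k : Type) [Field k] (𝒱 : VarClass k) (C : TheoryData.{0, 0, 0} 𝒱 ℚ) [IsChow C]
    (K : Type) [Field K] [IsAlgClosed K] [CharZero K] (H : WeilTheoryData.{0, 0, 0} C K)
    [IsWeil H] (s : ℕ) (A Z : 𝒱.Obj) (πA : A ⟶ A) (πZ : Z ⟶ Z),
      IsIndepSituation H q s f πA πZ →
        ∃ (J : Type) (_ : Fintype J) (deg : J → ℕ) (D : J → C.A A),
          (∀ j, DivisorProduct C (deg j) (D j)) ∧ ∀ T : MotivicData C, IsMotivic T →
            ActsAsPower T (prodMap πA πZ) (q ^ s) → HasKunneth T A Z deg D ∧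
              ∀ n : ℤ, T.Vanishes (A.prod Z) n ↔ T.Vanishes Z n

end Pool.Agent.N205.SE
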