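import Mathlib
import Pool.Agent.W484.CK.Main
import Pool.Agent.N205.SE.Dual2
import Pool.Agent.N205.SE.StmMot
import Pool.Agent.N205.SE.StmChow

/-!
# Chow groups and motivic theories
-/

set_option autoImplicit false
set_option linter.unusedSectionVars false

open CategoryTheory AlgebraicGeometry

universe u v w

namespace Pool.Agent.N205.SE.CK

open Module Polynomial Pool.Agent.H914 Pool.Agent.H914.VarClass Pool.Agent.H914.VarClass.Obj
  Pool.Agent.W492.BB Pool.Agent.W550.Corr Pool.Agent.W484.TB Pool.Agent.W484.HS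
  Pool.Agent.W521.Frob Pool.Agent.W521.Count Pool.Agent.W521.Bad Pool.Agent.W521.Descent
  Pool.Agent.W521.Density Pool.Agent.N205.SD Pool.Agent.N205.SE Pool.Agent.W484 Pool.Agent.W484.CK

section

variable {I : Type} [Finite I] (g : I → ℕ) (hg : ∀ i, 0 < g i)
  {q : ℕ} (hq : 1 < q) (x : (Σ i, Fin (g i)) → ℤ) (hx : Good g q x)

include hg hq hx

theorem chow_indep : ChowForIndep q (fun i => weil q (polys g x i)) := by
  intro k _ 𝒱 C _ K _ _ _ H _ s A Z πA πZ hsit hF
  obtain ⟨J, hJ, deg, D, E', hdual, hD, hK⟩ := CH.kunneth_main g hg hq x hx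
    (isStandard_bridge hsit.standard) hsit.pos (isAbelian_bridge hsit.abelian)
    (πZ := πZ) hsit.indep (nilpotence_bridge hsit.nilpotence)
  have h1 : CH.HasKunneth (CH.chowData C) A Z deg D := CH.hasKunneth_of hdual
    CH.chowData_isCorrTheory (hK (CH.chowData C) CH.chowData_isCorrTheory
      (CH.chowData_actsAsPower (isFrobenius_bridge hF)))
  refine ⟨⟨J, hJ, deg, D, hD, fun i y hy => ?_⟩, CH.ratEqNum_iff hdual h1,
    CH.ratEqHom_iff hdual h1⟩
  obtain ⟨z, ⟨hz1, hz2⟩, hz3⟩ := h1 i y hy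
  have h2 : ∀ z' : J → C.A Z, ∑ j, times C (D j) (z' j) =
      ∑ j, (CH.chowData C).act (CH.extBy C Z (D j)) (z' j) := fun z' =>
    Finset.sum_congr rfl fun j _ => (CH.act_extBy C (D j) (z' j)).symm
  refine ⟨z, ⟨hz1, ?_⟩, fun z' hz' => hz3 z' ⟨hz'.1, ?_⟩⟩
  · rw [h2 z]
    exact hz2
  · rw [← h2 z']
    exact hz'.2

theorem motivic_indep : MotivicForIndep q (fun i => weil q (polys g x i)) := by
  intro k _ 𝒱 C _ K _ _ _ H _ s A Z πA πZ hsit
  obtain ⟨J, hJ, deg, D, E', hdual, hD, hK⟩ := CH.kunneth_main g hg hq x hx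
    (isStandard_bridge hsit.standard) hsit.pos (isAbelian_bridge hsit.abelian)
    (πZ := πZ) hsit.indep (nilpotence_bridge hsit.nilpotence)
  refine ⟨J, hJ, deg, D, hD, fun T hT hπ => ?_⟩
  have h1 : CH.HasKunneth (toCorr T) A Z deg D := CH.hasKunneth_of hdual
    (toCorr_isCorrTheory hT) (hK (toCorr T) (toCorr_isCorrTheory hT) (toCorr_actsAsPower hπ))
  refine ⟨h1, fun n => ?_⟩
  rw [vanishes_iff, vanishes_iff]
  exact CH.vanish_iff (toCorr_isCorrTheory hT) h1 n

end

end Pool.Agent.N205.SE.CK
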