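import Mathlib
import Pool.Agent.N166.CZ.Def
import Pool.Agent.N205.SE.Defs

/-!
# Products with almost all abelian varieties over number fields: the property
-/

set_option autoImplicit false

namespace Pool.Agent.N205.SE

open Polynomial Pool.Agent.H204R3.GP Pool.Agent.W484.TB Pool.Agent.N166.CZ

/-- The eigenvalues of `T` are roots of a nonzero rational polynomial such that no power of a root of
one of the `f i` is a product of powers of `q` and of roots of this polynomial. -/
def IsIndepMap {k M : Type*} [Field k] [CharZero k] [AddCommGroup M] [Module k M] (q : ℕ)
    {I : Type} (f : I → ℤ[X]) (T : Module.End k M) : Prop :=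
  ∃ P : ℚ[X], P ≠ 0 ∧ aeval T (P.map (algebraMap ℚ k)) = 0 ∧ Indep q f {z : ℂ | aeval z P = 0}

/-- For all abelian varieties such that the characteristic polynomial of one Frobenius element `γ` is
the product of the `f i`, and all varieties `Z` such that no power of a root of one of the `f i` is a
product of powers of `q` and of eigenvalues of the geometric Frobenius element `γ⁻¹` on the
cohomology `M = H^b(Z)`: the Tate classes on the products of the powers of the abelian variety with
`Z` are combinations of products of Tate classes of degree two on the abelian variety with Tate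
classes on `Z`. -/
def TateProductsIndep {I : Type} [Fintype I] (q : ℕ) (f : I → ℤ[X]) : Prop :=
  ∀ (k : Type) [Field k] [CharZero k] (V : Type) [AddCommGroup V] [Module k V]
    [FiniteDimensional k V] (Γ : Type) [Group Γ] (ρ : Representation k Γ V) (χ : Γ →* k),
    IsTateModule ρ χ → ∀ γ : Γ, χ γ = q → (ρ γ).charpoly = ∏ i, (f i).map (Int.castRingHom k) →
    ∀ (M : Type) [AddCommGroup M] [Module k M] [FiniteDimensional k M]
      (σ : Representation k Γ M), IsIndepMap q f (σ γ⁻¹) → ProductsWith ρ χ σ

end Pool.Agent.N205.SE
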