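import Mathlib
import Pool.Agent.N166.CZ.Main
import Pool.Agent.N205.SE.Fin
import Pool.Agent.N205.SE.StmCZ

/-!
# The Tate conjecture over number fields
-/

set_option autoImplicit false
set_option linter.unusedSectionVars false


namespace Pool.Agent.N205.SE.CZ

open Module Polynomial Pool.Agent.H204R3.GP Pool.Agent.H204R3.SP Pool.Agent.W484.TB
  Pool.Agent.W484.HS Pool.Agent.W521.Frob Pool.Agent.W521.Count Pool.Agent.W521.Bad
  Pool.Agent.W521.Descent Pool.Agent.W521.Density Pool.Agent.N205.SD Pool.Agent.N205.SE Pool.Agent.W484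
  Pool.Agent.N166 Pool.Agent.N166.CZ

theorem goodU_univ {I : Type} {g : I → ℕ} {q : ℕ} {x : (Σ i, Fin (g i)) → ℤ}
    (h : Pool.Agent.W521.Bad.Good g q x) : GoodU Set.univ g q x :=
  ⟨fun i => by
    obtain ⟨l, h1, h2, h3, h4⟩ := h.1 i
    exact ⟨l, h1, h2, h3, Set.mem_univ l, h4⟩, h.2.1, h.2.2⟩

theorem tateProducts_indep {I : Type} [Fintype I] (g : I → ℕ) (hg : ∀ i, 0 < g i)
    {q : ℕ} (hq : q ≠ 0) (x : (Σ i, Fin (g i)) → ℤ) (hx : Pool.Agent.W521.Bad.Good g q x) :
    TateProductsIndep q (fun i => weil q (polys g x i)) := by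
  classical
  intro k _ _ V _ _ _ Γ _ ρ χ hV γ hχ hγ M _ _ _ σ hσ
  obtain ⟨⟨ω, halt, hnd, hω⟩, hss⟩ := hV
  obtain ⟨P, hP0, hP, hrank⟩ := hσ
  have hss' : ∀ Δ : Subgroup Γ, Δ.FiniteIndex → SemiUnder (ρ '' (Δ : Set Γ)) := by
    intro Δ hΔ U hU
    obtain ⟨U', h1, h2⟩ := hss Δ hΔ U (fun s hs u hu => hU _ ⟨s, hs, rfl⟩ u hu)
    refine ⟨U', ?_, h2⟩
    rintro _ ⟨s, hs, rfl⟩ u hu
    exact h1 s hs u hu
  -- the field
  let F : k[X] := (ρ γ).charpoly * P.map (algebraMap ℚ k)
  let K := SplittingField F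
  have hinj : Function.Injective (algebraMap k K) := (algebraMap k K).injective
  have : CharZero K := charZero_of_injective_algebraMap hinj
  have hPk0 : P.map (algebraMap ℚ k) ≠ 0 := by
    rw [Ne, Polynomial.map_eq_zero]
    exact hP0
  have hC0 : (ρ γ).charpoly ≠ 0 := (ρ γ).charpoly_monic.ne_zero
  have hFs : (F.map (algebraMap k K)).Splits := SplittingField.splits F
  rw [Polynomial.map_mul] at hFs
  have hCK0 : (ρ γ).charpoly.map (algebraMap k K) ≠ 0 := by
    rw [Ne, Polynomial.map_eq_zero]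
    exact hC0
  have hPK : (P.map (algebraMap ℚ k)).map (algebraMap k K) = P.map (algebraMap ℚ K) := by
    rw [Polynomial.map_map]
    congr 1
  have hPK0 : P.map (algebraMap ℚ K) ≠ 0 := by
    rw [Ne, Polynomial.map_eq_zero]
    exact hP0
  rw [hPK] at hFs
  have hsp1 : ((ρ γ).charpoly.map (algebraMap k K)).Splits :=
    hFs.of_dvd (mul_ne_zero hCK0 hPK0) (dvd_mul_right _ _)
  have hsp2 : (P.map (algebraMap ℚ K)).Splits :=
    hFs.of_dvd (mul_ne_zero hCK0 hPK0) (dvd_mul_left _ _)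
  have hsep : (ρ γ).charpoly.Separable := by
    rw [hγ]
    have h1 := (separable_weil g Set.univ hq x (goodU_univ hx)).map (f := algebraMap ℚ k)
    rw [Polynomial.map_prod] at h1
    have h2 : ∀ i, ((weil q (polys g x i)).map (Int.castRingHom ℚ)).map (algebraMap ℚ k) =
        (weil q (polys g x i)).map (Int.castRingHom k) := by
      intro i
      rw [Polynomial.map_map]
      congr 1
      exact RingHom.ext_int _ _
    simpa only [h2] using h1
  have hroot : ∀ z : {z : K // ((ρ γ).charpoly.map (algebraMap k K)).IsRoot z},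
      ∃ i, aeval (z : K) (weil q (polys g x i)) = 0 := by
    rintro ⟨z, hz⟩
    rw [hγ, Polynomial.map_prod, IsRoot, eval_prod, Finset.prod_eq_zero_iff] at hz
    obtain ⟨i, -, hi⟩ := hz
    refine ⟨i, ?_⟩
    rw [Polynomial.map_map, eval_map] at hi
    rw [RingHom.ext_int ((algebraMap k K).comp (Int.castRingHom k)) (algebraMap ℤ K)] at hi
    exact hi
  have hpair : ∀ (P' : ℚ[X]), P' ≠ 0 → Indep q (fun i => weil q (polys g x i)) {z : ℂ | aeval z P' = 0} →
      ∀ ρ' : K, aeval ρ' P' = 0 → ExactPairK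
        (fun z : {z : K // ((ρ γ).charpoly.map (algebraMap k K)).IsRoot z} => (z : K))
        (algebraMap k K (χ γ)) ρ' := by
    intro P' hP' hr' ρ' hρ'
    refine exactPairK_transfer (pair_field g hq x hx 1 one_pos P' hP' hr' ρ' hρ')
      (fun z => ⟨z, hroot z⟩) (fun z => pow_one _) ?_
    rw [hχ, pow_one, map_natCast]
  refine productsWith_of ρ χ σ fun d bM => ?_
  refine core ρ χ ω halt hnd hω hss' γ (K := K) hsep hsp1 (matS σ bM) (P.map (algebraMap ℚ K))
    hPK0 hsp2 (aeval_bcS σ bM _ P hP) ?_ ?_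
  · refine hpair (X - 1) ?_ (indep_one g hg hq x hx) 1
      (by rw [map_sub, aeval_X, map_one, sub_self])
    exact X_sub_C_ne_zero 1
  · intro ρ' hρ'
    refine hpair P hP0 hrank ρ' ?_
    rw [IsRoot, eval_map] at hρ'
    exact hρ'


end Pool.Agent.N205.SE.CZ
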