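import Mathlib
import Pool.Agent.N205.SE.Pair
import Pool.Agent.N205.SD.Every

/-!
# The main theorem: the count
-/

set_option autoImplicit false

namespace Pool.Agent.N205.SE

open Polynomial Pool.Agent.W521.Frob Pool.Agent.W521.Descent Pool.Agent.W521.Density
  Pool.Agent.W521.Count Pool.Agent.W521.Turan Pool.Agent.W521.Total Pool.Agent.W521.Sieve
  Pool.Agent.W521.Bad Pool.Agent.W484.TB Pool.Agent.N205.NS Pool.Agent.N205.SD

/-- **The count.** -/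
theorem indep_unif {I : Type} [Fintype I] (g : I → ℕ) (hg : ∀ i, 0 < g i) (d : ℕ)
    (hd : DimsU g d) (D : ℕ) (P : ℕ → (I → ℤ[X]) → Prop)
    (hP : ∀ q : ℕ, IsPrimePow q → ∀ x : (Σ i, Fin (g i)) → ℤ, Good g q x →
      P q (fun i => weil q (polys g x i))) :
    ∃ C : ℝ, ∀ p a t : ℕ, p.Prime → 0 < a → 0 < t → ∀ S : I → Set ℤ[X],
      (∀ i, IsStratum p a (g i) t (S i)) →
      (∀ i, (S i).Finite ∧ (4 ^ g i ≤ p ^ t → (S i).Nonempty)) ∧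
      ({f : I → ℤ[X] | (∀ i, f i ∈ S i) ∧ ¬ (P (p ^ a) f ∧ Criterion g (p ^ a) f)}.ncard : ℝ) ≤
        C * (Real.log ((p ^ t : ℕ) : ℝ) * ((p ^ t : ℕ) : ℝ) ^ (-(1 / 6) : ℝ)) *
          ∏ i, ((S i).ncard : ℝ) ∧
      ∀ E : IntermediateField ℚ ℂ, Normal ℚ E → FiniteDimensional ℚ E → Module.finrank ℚ E ≤ D →
        ({f : I → ℤ[X] | (∀ i, f i ∈ S i) ∧ ¬ NoRoot f (lowField E d)}.ncard : ℝ) ≤
          C * (Real.log ((p ^ t : ℕ) : ℝ) * ((p ^ t : ℕ) : ℝ) ^ (-(1 / 6) : ℝ)) *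
            ∏ i, ((S i).ncard : ℝ) := by
  classical
  obtain ⟨C, hC⟩ := strata_count_for g (J := Unit) _ (rareFor_of_rare (rare_good g hg 0 (by omega)))
    hg (fun _ q f => P q f ∧ Criterion g q f) (by
      intro _ q hq x hx
      exact ⟨hP q hq x hx.1, criterion_of_good g hq.pos.ne' x hx.1⟩)
  obtain ⟨C', hC'⟩ := strata_count_for g _ (rare_noRoot g hg d hd D) hg
    (fun E _ f => NoRoot f (lowField E.1 d)) (fun E q hq x hx => hx)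
  refine ⟨max C C', fun p a t hp ha ht S hS => ?_⟩
  have h1 := hC () p a t hp ha ht S hS
  have hr : 0 ≤ (Real.log ((p ^ t : ℕ) : ℝ) * ((p ^ t : ℕ) : ℝ) ^ (-(1 / 6) : ℝ)) := rate_nonneg _
  have hprod : (0 : ℝ) ≤ ∏ i, ((S i).ncard : ℝ) := Finset.prod_nonneg fun i _ => Nat.cast_nonneg _
  have hmono : ∀ c, c ≤ max C C' →
      c * (Real.log ((p ^ t : ℕ) : ℝ) * ((p ^ t : ℕ) : ℝ) ^ (-(1 / 6) : ℝ)) *
          ∏ i, ((S i).ncard : ℝ) ≤
      max C C' * (Real.log ((p ^ t : ℕ) : ℝ) * ((p ^ t : ℕ) : ℝ) ^ (-(1 / 6) : ℝ)) *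
          ∏ i, ((S i).ncard : ℝ) := fun c hc =>
    mul_le_mul_of_nonneg_right (mul_le_mul_of_nonneg_right hc hr) hprod
  refine ⟨h1.1, h1.2.trans (hmono C (le_max_left _ _)), fun E hE1 hE2 hE3 => ?_⟩
  exact (hC' ⟨E, hE1, hE2, hE3⟩ p a t hp ha ht S hS).2.trans (hmono C' (le_max_right _ _))

end Pool.Agent.N205.SE
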