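import Mathlib
import Pool.Agent.W484.CK.NCChow
import Pool.Agent.N205.SE.StmA

/-!
# The kernels of the Euler pairings of noncommutative motives: the property
-/

set_option autoImplicit false

open CategoryTheory AlgebraicGeometry

universe u v w

namespace Pool.Agent.N205.SE

open Polynomial Pool.Agent.H914 Pool.Agent.H914.VarClass Pool.Agent.H914.VarClass.Obj
  Pool.Agent.W492.BB Pool.Agent.W484.CK

/-- Rational and numerical equivalence coincide on `X` (with rational coefficients, in all
codimensions), as predicted by Beilinson; in other words the kernel of the Euler pairing of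
`K_0(X)_ℚ` is zero. -/
def RatEqNumAll {k : Type u} [Field k] {𝒱 : VarClass k} {C : TheoryData.{u, v, 0} 𝒱 ℚ} {K : Type w}
    [Field K] (H : WeilTheoryData.{u, v, w} C K) (X : 𝒱.Obj) : Prop :=
  ∀ x : C.A X, IsNumTrivial H x → x = 0

/-- `NCNumForIndep q f`: for the Chow groups `C` with rational
coefficients of all classes `𝒱` of varieties over fields `k` (finite, in the intended use),
every Weil cohomology theory `H` with coefficients in an algebraically closed field `K` of
characteristic zero and all `A`, `Z` as in `IsIndepSituation` there are products `D j`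
of `deg j` divisor classes on `A`, finitely many, such that the following holds:
* for all direct summands `(Z, e)` of the noncommutative motive of `Z`: the Kunneth formula
  `K_0(A × Z, 1 × e)_ℚ = ⨁ D j × K_0(Z, e)_ℚ` holds, the same for the kernels of the Euler
  pairings, and the Euler pairing of `K_0(A × Z, 1 × e)_ℚ` is nondegenerate if and only if the
  one of `K_0(Z, e)_ℚ` is;
* if the Euler pairing of `K_0(Z)_ℚ` is nondegenerate, then so is the one of `K_0(A × Z, e₂)_ℚ` for
  **all** direct summands `(A × Z, e₂)` of the noncommutative motive of `A × Z`. -/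
def NCNumForIndep (q : ℕ) {I : Type} (f : I → ℤ[X]) : Prop :=
  ∀ (k : Type) [Field k] (𝒱 : VarClass k) (C : TheoryData.{0, 0, 0} 𝒱 ℚ) [IsChow C],
    IsoInvariant C → ∀ (K : Type) [Field K] [IsAlgClosed K] [CharZero K]
    (H : WeilTheoryData.{0, 0, 0} C K) [IsWeil H] (s : ℕ) (A Z : 𝒱.Obj) (πA : A ⟶ A)
    (πZ : Z ⟶ Z), IsIndepSituation H q s f πA πZ → IsFrobenius C (prodMap πA πZ) (q ^ s) →
      ∃ (J : Type) (_ : Fintype J) (deg : J → ℕ) (D : J → C.A A),
        (∀ j, DivisorProduct C (deg j) (D j)) ∧
        (∀ e : C.A (Z.prod Z), IsIdempotent C e → KZeroKunneth H A e D ∧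
          (IsNondegenerate H (relative C A e) ↔ IsNondegenerate H e)) ∧
        (RatEqNumAll H Z → ∀ e₂ : C.A ((A.prod Z).prod (A.prod Z)), IsIdempotent C e₂ →
          IsNondegenerate H e₂)

end Pool.Agent.N205.SE
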