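import Mathlib
import Pool.Agent.W484.CK.NCMain
import Pool.Agent.N205.SE.Dual2
import Pool.Agent.N205.SE.StmNCN

/-!
# The kernels of the Euler pairings of noncommutative motives
-/

set_option autoImplicit false
set_option linter.unusedSectionVars false

open CategoryTheory AlgebraicGeometry

universe u v w

namespace Pool.Agent.N205.SE.CK

open Module Polynomial Pool.Agent.H914 Pool.Agent.H914.VarClass Pool.Agent.H914.VarClass.Obj
  Pool.Agent.W492.BB Pool.Agent.W550.Corr Pool.Agent.W484.TB Pool.Agent.W484.HS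
  Pool.Agent.W521.Frob Pool.Agent.W521.Count Pool.Agent.W521.Bad Pool.Agent.W521.Descent
  Pool.Agent.W521.Density Pool.Agent.N205.SD Pool.Agent.N205.SE Pool.Agent.W484 Pool.Agent.W484.CK

section

variable {I : Type} [Finite I] (g : I → ℕ) (hg : ∀ i, 0 < g i)
  {q : ℕ} (hq : 1 < q) (x : (Σ i, Fin (g i)) → ℤ) (hx : Good g q x)

include hg hq hx

theorem ncNum_indep : NCNumForIndep q (fun i => weil q (polys g x i)) := by
  classical
  intro k _ 𝒱 C _ hI K _ _ _ H _ s A Z πA πZ hsit hF
  obtain ⟨J, hJ, deg, D, E', hne, hdual, hD, hE, hK⟩ := CH.kunneth_both g hg hq x hx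
    (isStandard_bridge hsit.standard) hsit.pos (isAbelian_bridge hsit.abelian)
    (πZ := πZ) hsit.indep (nilpotence_bridge hsit.nilpotence)
  have hT' := fun i m hm => (hK (toCorr (chowMot C)) (toCorr_isCorrTheory chowMot_isMotivic)
    (toCorr_actsAsPower (chowMot_actsAsPower hF)) i m hm).1
  refine ⟨J, hJ, deg, D, hD, fun e _ => ⟨kzeroKunneth_of hdual hI hT' e,
    nondegenerate_iff hdual hI hT' e⟩, fun hZ e₂ _ y _ hnum => ?_⟩
  obtain ⟨z, h1⟩ : ∃ z : J → C.A Z, y = ∑ j, times C (D j) (z j) :=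
    ⟨fun j => (chowMot C).act (CH.pairBy C Z (E' j)) y,
      (expand_all chowMot_isExhausted hT' y).trans
        (Finset.sum_congr rfl fun j _ => app_ext_chow (D j) _)⟩
  have h2 : ∀ j, z j = 0 := fun j => by
    refine hZ _ ((numTrivial_iff hdual z).1 ?_ j)
    rw [← h1]
    exact hnum
  rw [h1]
  refine Finset.sum_eq_zero fun j _ => ?_
  rw [h2 j]
  change C.pull (fst A Z) (D j) * C.pull (snd A Z) 0 = 0
  rw [map_zero, mul_zero]

end

end Pool.Agent.N205.SE.CK
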