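import Mathlib
import Pool.Agent.W484.CK.NCTate
import Pool.Agent.N205.SE.StmA

/-!
# Noncommutative motives: the property
-/

set_option autoImplicit false

open CategoryTheory AlgebraicGeometry

namespace Pool.Agent.N205.SE

open Polynomial Pool.Agent.H914 Pool.Agent.H914.VarClass Pool.Agent.H914.VarClass.Obj
  Pool.Agent.W492.BB Pool.Agent.W484.CK

/-- `NCTateForIndep q f`: for the Chow groups `C` with rational
coefficients of all classes `𝒱` of varieties over fields `k` (finite, in the intended use),
every Weil cohomology theory `H` with coefficients in an algebraically closed field `K` of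
characteristic zero and all `A`, `Z` as in `IsOpenIndepSituation` there are products `D j`
of `deg j` divisor classes on `A`, finitely many, such that the following holds for
all direct summands `(Z, e)` of the noncommutative motive of `Z`: the Kunneth formula for the
Frobenius invariants in the cohomology of `(A × Z, 1 × e)` holds, and the Tate conjecture holds
for `(A × Z, 1 × e)` if and only if it holds for `(Z, e)`. -/
def NCTateForIndep (q : ℕ) {I : Type} (f : I → ℤ[X]) : Prop :=
  ∀ (k : Type) [Field k] (𝒱 : VarClass k) (C : TheoryData.{0, 0, 0} 𝒱 ℚ) [IsChow C],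
    IsoInvariant C → ∀ (K : Type) [Field K] [IsAlgClosed K] [CharZero K]
    (H : WeilTheoryData.{0, 0, 0} C K) [IsWeil H] (s : ℕ) (A Z : 𝒱.Obj) (πA : A ⟶ A)
    (πZ : Z ⟶ Z), IsOpenIndepSituation H q s f πA πZ →
      ∃ (J : Type) (_ : Fintype J) (deg : J → ℕ) (D : J → C.A A),
        (∀ j, DivisorProduct C (deg j) (D j)) ∧ ∀ e : C.A (Z.prod Z), IsIdempotent C e →
          TateKunneth H πA πZ (q ^ s) e D ∧
            (NCTateConjecture H (prodMap πA πZ) (q ^ s) (relative C A e) ↔
              NCTateConjecture H πZ (q ^ s) e)

end Pool.Agent.N205.SE
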