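import Mathlib
import Pool.Agent.W484.CK.NCTateMain
import Pool.Agent.N205.SE.Eig
import Pool.Agent.N205.SE.StmNCT

/-!
# The noncommutative Tate conjecture
-/

set_option autoImplicit false
set_option linter.unusedSectionVars false

open CategoryTheory AlgebraicGeometry

universe u v w

namespace Pool.Agent.N205.SE.CK

open Module Polynomial Pool.Agent.H914 Pool.Agent.H914.VarClass Pool.Agent.H914.VarClass.Obj
  Pool.Agent.W492.BB Pool.Agent.W550.Corr Pool.Agent.W484.TB Pool.Agent.W484.HS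
  Pool.Agent.W521.Frob Pool.Agent.W521.Count Pool.Agent.W521.Bad Pool.Agent.W521.Descent
  Pool.Agent.W521.Density Pool.Agent.N205.SD Pool.Agent.N205.SE Pool.Agent.W484 Pool.Agent.W484.CK

section

variable {I : Type} [Finite I] (g : I → ℕ) (hg : ∀ i, 0 < g i)
  {q : ℕ} (hq : 1 < q) (x : (Σ i, Fin (g i)) → ℤ) (hx : Good g q x)

include hg hq hx

theorem ncTate_indep : NCTateForIndep q (fun i => weil q (polys g x i)) := by
  intro k _ 𝒱 C _ hI K _ _ _ H _ s A Z πA πZ hsit
  obtain ⟨J, hJ, deg, D, E', hne, hdual, hD, hE, hK⟩ := CH.kunneth_eigen g hg hq x hx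
    (isStandard_bridge hsit.standard) hsit.pos (isAbelian_bridge hsit.abelian)
    (πZ := πZ) hsit.indep
  have hK' := fun i w hw => (hK i w hw).1
  have hQ : q ^ s ≠ 0 := pow_ne_zero _ (by omega)
  have hπA := isFrobenius_bridge hsit.abelian.frobenius
  exact ⟨J, hJ, deg, D, hD, fun e he => ⟨tateKunneth_of hI hdual hQ hπA hK' e,
    ncTate_iff hI hdual hQ hπA hK' he⟩⟩

end

end Pool.Agent.N205.SE.CK
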