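import Mathlib
import Pool.Agent.N166.MU.Stm
import Pool.Agent.N205.SE.StmA

/-!
# The situation over the finite field
-/

set_option autoImplicit false

open CategoryTheory AlgebraicGeometry Polynomial

universe u v w

namespace Pool.Agent.N205.SE

open Pool.Agent.H914 Pool.Agent.H914.VarClass Pool.Agent.H914.VarClass.Obj
  Pool.Agent.W492.BB Pool.Agent.W484.CK Pool.Agent.N166.MU

/-- The situation over the finite field: `πA` is the Frobenius endomorphism of an abelian variety
`A` over the field with `q ^ s` elements, isogenous to a product of powers of abelian varieties
coming from the field with `q` elements with characteristic polynomials of Frobenius `f i`; `Y` is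
any variety over the field with `q ^ s` elements, such that no power of a root of one of the `f i` is
a product of powers of `q` and of eigenvalues of its Frobenius endomorphism `πY` on the cohomology;
and `πA × πY` acts on the Chow groups of `A × Y` in the usual way. -/
structure IsIndepBase {k : Type u} [Field k] {𝒱 : VarClass k} {C : TheoryData.{u, v, 0} 𝒱 ℚ}
    {K : Type w} [Field K] (H : WeilTheoryData.{u, v, w} C K) [CharZero K]
    (q s : ℕ) {I : Type} (f : I → ℤ[X]) {A Y : 𝒱.Obj} (πA : A ⟶ A) (πY : Y ⟶ Y) : Prop where
  standard : IsStandard H
  normalized : IsNormalized C
  pos : 0 < s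
  abelian : IsAbelian H πA q s f
  indep : IndependentEigenvalues H q f πY
  frobenius : IsFrobenius C (prodMap πA πY) (q ^ s)

end Pool.Agent.N205.SE
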