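import Mathlib
import Pool.Agent.N166.DF.Main
import Pool.Agent.N205.SE.Eig
import Pool.Agent.N205.SE.StmDF

/-!
# Numerical and homological equivalence
-/

set_option autoImplicit false
set_option linter.unusedSectionVars false

open CategoryTheory AlgebraicGeometry Polynomial

universe u v w

namespace Pool.Agent.N205.SE.DF

open Pool.Agent.H914 Pool.Agent.H914.VarClass Pool.Agent.H914.VarClass.Obj Pool.Agent.W492.BB
  Pool.Agent.W550.Corr Pool.Agent.TH133 Pool.Agent.W484.CK Pool.Agent.W484.TB Pool.Agent.W484.HS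
  Pool.Agent.W521.Frob Pool.Agent.W521.Count Pool.Agent.W521.Bad Pool.Agent.W521.Descent
  Pool.Agent.W521.Density Pool.Agent.N166.MU Pool.Agent.N205.SD Pool.Agent.N205.SE Pool.Agent.W484 Pool.Agent.N166
  Pool.Agent.N166.DF

section

variable {I : Type} [Finite I] (g : I → ℕ) (hg : ∀ i, 0 < g i)
  {q : ℕ} (hq : 1 < q) (x : (Σ i, Fin (g i)) → ℤ) (hx : Good g q x)

include hg hq hx

theorem numHom_indep : NumHomForIndep q (fun i => weil q (polys g x i)) := by
  intro k _ 𝒱 C _ K _ _ _ H _ s A Y πA πY hsit k' _ 𝒱' C' _ K' _ H' _ A' Z α β γ hN' hS' hT'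
    hfib hhom
  have hC1 : IsChowProj C := isChowProj_of hsit.normalized hsit.standard
  have hC2 : IsChowProj C' := isChowProj_of hN' hS'
  have hH2 : IsWeilProj H' := isWeilProj_of hS' hT'
  obtain ⟨J, hJ, deg, D, E', -, hdual, hD, -, hK⟩ := Pool.Agent.N205.SE.CH.kunneth_eigen g hg hq x
    hx (isStandard_bridge hsit.standard) hsit.pos (isAbelian_bridge hsit.abelian) (πZ := πY)
    hsit.indep
  have hG : GenHom H' A' Z deg (fun j => α (D j)) (fun j => α (E' j)) := by
    refine ⟨fun j => hfib.left _ _ (hdual.left j), fun j => ?_, fun j => ?_, fun i j hij => ?_,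
      fun i x hx => ?_⟩
    · rw [hfib.dim]
      exact hfib.left _ _ (hdual.right j)
    · change HasDegree C' (C'.mul (α (D j)) (α (E' j))) 1
      rw [← hfib.mul]
      exact hfib.degree _ _ (eq_of_dual hsit.standard hdual j)
    · change HasDegree C' (C'.mul (α (D i)) (α (E' j))) 0
      rw [← hfib.mul]
      exact hfib.degree _ _ (ne_of_dual hsit.standard hdual i j hij)
    · obtain ⟨y, hy, rfl⟩ := hfib.surjective i x hx
      refine ⟨fun j => β (coef (E' j) y), fun j => hfib.right _ _ ?_, ?_⟩
      · exact coef_mem (hdual.right j) hy (by ring)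
      · have h1 := (hK i (H.cl y) (pull_cl_frob hsit.frobenius hy)).1
        have h2 := Pool.Agent.W484.CH.eq_sum_of_act h1
        have h3 : H.cl y = H.cl (∑ j, C.ext (D j) (coef (E' j) y)) := by
          rw [h2, map_sum]
          refine Finset.sum_congr rfl fun j _ => ?_
          rw [← cl_act H, ← cl_act H, Pool.Agent.W484.CH.act_extBy,
            Pool.Agent.W484.CH.act_pairBy]
          rfl
        have h4 : H'.cl (γ (y - ∑ j, C.ext (D j) (coef (E' j) y))) = 0 := by
          apply hhom
          rw [map_sub, h3, sub_self]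
        have h5 : γ (y - ∑ j, C.ext (D j) (coef (E' j) y)) =
            γ y - ∑ j, γ (C.ext (D j) (coef (E' j) y)) := by
          have h6 := map_sub (AddMonoidHom.mk' γ hfib.add) y (∑ j, C.ext (D j) (coef (E' j) y))
          have h7 := map_sum (AddMonoidHom.mk' γ hfib.add)
            (fun j => C.ext (D j) (coef (E' j) y)) Finset.univ
          rw [h7] at h6
          exact h6
        rw [h5, map_sub, sub_eq_zero] at h4
        rw [h4]
        congr 1
        exact Finset.sum_congr rfl fun j _ => hfib.times (D j) (coef (E' j) y)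
  exact ⟨⟨J, hJ, deg, fun j => α (D j), fun j => divisorProduct_fibre hfib (hD j), hG.gen⟩,
    numEqHom_iff H' hG⟩

end


end Pool.Agent.N205.SE.DF
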